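import Mathlib

/-!
# MP_424c76_an, Q1: the shadow of a rhombus has empty interior

For `P = (X² - a²)(X² + b²)` with `a, b > 0`, `a ≠ b`, whose roots `±a, ±ib` are the vertices of
a rhombus that is not a square, all zeros of all derivatives of all powers of `P` lie on the two
coordinate axes.  Hence the shadow of `P` is not a closed domain.
-/

namespace Pool.Agent.Results.MP_424c76_an.Rhombi

open Polynomial Set

/-- The set `Z` of all zeros of the polynomials `Q_{n,m} = (P ^ n)^{(m)}`, `n ≥ 1`,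
`0 ≤ m ≤ n deg P`. -/
def zeroSet (P : ℂ[X]) : Set ℂ :=
  {z | ∃ n m : ℕ, 1 ≤ n ∧ m ≤ n * P.natDegree ∧ (derivative^[m] (P ^ n)).eval z = 0}

/-- The shadow of `P`. -/
def shadow (P : ℂ[X]) : Set ℂ := closure (zeroSet P)

/-- The set of the roots of `P`. -/
def rootSet' (P : ℂ[X]) : Set ℂ := {w | w ∈ P.roots}

/-- The roots of `P` are in convex position: they are distinct and none of them lies in the convex
hull of the others. -/
def RootsInConvexPosition (P : ℂ[X]) : Prop :=
  P.roots.Nodup ∧ ∀ z ∈ rootSet' P, z ∉ convexHull ℝ (rootSet' P \ {z})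

/-- The roots of `P` are the vertices of a regular `d`-gon, `d = deg P`: they are the points
`c + r ζ` with `ζ ^ d = 1`. -/
def RootsFormRegularPolygon (P : ℂ[X]) : Prop :=
  ∃ c r : ℂ, r ≠ 0 ∧ rootSet' P = {w | ∃ ζ : ℂ, ζ ^ P.natDegree = 1 ∧ w = c + r * ζ}

/-- A closed domain: the closure of a nonempty connected open set. -/
def IsClosedDomain (S : Set ℂ) : Prop := ∃ U : Set ℂ, IsOpen U ∧ IsConnected U ∧ S = closure U

/-- The polynomial `(X² - a²)(X² + b²)` with roots `±a, ±ib`. -/
noncomputable def rhombus (a b : ℝ) : ℂ[X] := (X ^ 2 - C ((a : ℂ) ^ 2)) * (X ^ 2 + C ((b : ℂ) ^ 2))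

/-! ### Real-rootedness -/

theorem im_inv_sub {ζ w : ℂ} (hw : w.im = 0) :
    ζ.im * (1 / (ζ - w)).im = -(ζ.im ^ 2 / Complex.normSq (ζ - w)) := by
  rw [one_div, Complex.inv_im, Complex.sub_im, hw, sub_zero]
  ring

theorem sum_im {ζ : ℂ} (hζ : ζ.im ≠ 0) (s : Multiset ℂ) (hs : ∀ w ∈ s, w.im = 0) :
    ζ.im * ((s.map (fun w => 1 / (ζ - w))).sum).im ≤ 0 ∧
      (s ≠ 0 → ζ.im * ((s.map (fun w => 1 / (ζ - w))).sum).im < 0) := by
  induction s using Multiset.induction_on with
  | empty => simp
  | cons w s ih =>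
    have ih' := (ih (fun v hv => hs v (Multiset.mem_cons_of_mem hv))).1
    have hw := hs w (Multiset.mem_cons_self w s)
    have hne : ζ - w ≠ 0 := by
      intro h
      have : ζ.im = w.im := by rw [sub_eq_zero.1 h]
      exact hζ (this.trans hw)
    have h1 : 0 < ζ.im ^ 2 / Complex.normSq (ζ - w) :=
      div_pos (by positivity) (Complex.normSq_pos.2 hne)
    have h2 := im_inv_sub (ζ := ζ) hw
    rw [Multiset.map_cons, Multiset.sum_cons, Complex.add_im, mul_add, h2]
    exact ⟨by linarith, fun _ => by linarith⟩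

/-- All zeros of `G` are real, or `G = 0`. -/
def RR (G : ℂ[X]) : Prop := G = 0 ∨ ∀ ζ : ℂ, ζ.im ≠ 0 → G.eval ζ ≠ 0

theorem roots_real {G : ℂ[X]} (h : ∀ ζ : ℂ, ζ.im ≠ 0 → G.eval ζ ≠ 0) :
    ∀ w ∈ G.roots, w.im = 0 := by
  intro w hw
  by_contra hne
  exact h w hne (isRoot_of_mem_roots hw)

theorem RR_derivative {G : ℂ[X]} (h : RR G) : RR (derivative G) := by
  rcases h with rfl | h
  · left; simp
  by_cases hd : derivative G = 0
  · left; exact hd
  right
  intro ζ hζ h0
  have hG := h ζ hζ
  have h1 := (IsAlgClosed.splits G).eval_derivative_div_eval_of_ne_zero hG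
  rw [h0, zero_div] at h1
  have hne : G.roots ≠ 0 := by
    intro hr
    have h2 := (IsAlgClosed.splits G).natDegree_eq_card_roots
    rw [hr, Multiset.card_zero] at h2
    rw [Polynomial.eq_C_of_natDegree_eq_zero h2] at hd
    simp at hd
  have h3 := (sum_im hζ G.roots (roots_real h)).2 hne
  rw [← h1] at h3
  simp at h3

theorem RR_step {G : ℂ[X]} (h : RR G) (j : ℕ) :
    RR (C ((j : ℂ) + 1) * G + C 2 * X * derivative G) := by
  rcases h with rfl | h
  · left; simp
  right
  intro ζ hζ h0
  have hG := h ζ hζ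
  have h1 := (IsAlgClosed.splits G).eval_derivative_div_eval_of_ne_zero hG
  have hζ0 : ζ ≠ 0 := by
    rintro rfl
    simp at hζ
  have h2 := (sum_im hζ G.roots (roots_real h)).1
  rw [← h1] at h2
  simp only [eval_add, eval_mul, eval_C, eval_X] at h0
  have h3 : (derivative G).eval ζ / G.eval ζ =
      ((-(((j : ℝ) + 1) / 2) : ℝ) : ℂ) * (1 / (ζ - 0)) := by
    rw [sub_zero, div_eq_iff hG]
    push_cast
    have h7 : ζ * (derivative G).eval ζ = -(((j : ℂ) + 1) / 2) * G.eval ζ := by
      linear_combination h0 / 2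
    calc (derivative G).eval ζ = (1 / ζ) * (ζ * (derivative G).eval ζ) := by
          field_simp
      _ = _ := by rw [h7]; ring
  rw [h3] at h2
  have h4 := im_inv_sub (ζ := ζ) (w := 0) (by simp)
  have h5 : 0 < ζ.im ^ 2 / Complex.normSq (ζ - 0) :=
    div_pos (by positivity) (Complex.normSq_pos.2 (by simpa using hζ0))
  rw [Complex.im_ofReal_mul] at h2
  have h8 : (0 : ℝ) < ((j : ℝ) + 1) / 2 := by positivity
  nlinarith

/-! ### The derivatives of powers of the rhombus polynomial -/

/-- `F = X ^ j * G(X²)` for some `j` and some real-rooted `G`. -/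
def Good (F : ℂ[X]) : Prop := ∃ (j : ℕ) (G : ℂ[X]), RR G ∧ F = X ^ j * G.comp (X ^ 2)

theorem Good_derivative {F : ℂ[X]} (h : Good F) : Good (derivative F) := by
  obtain ⟨j, G, hG, rfl⟩ := h
  have hc : derivative (G.comp (X ^ 2)) = C 2 * X * (derivative G).comp (X ^ 2) := by
    rw [derivative_comp]
    simp only [derivative_X_pow, Nat.cast_ofNat, map_ofNat]
    ring
  cases j with
  | zero =>
    refine ⟨1, C 2 * derivative G, ?_, ?_⟩
    · rcases RR_derivative hG with h | h
      · left; rw [h, mul_zero]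
      · right
        intro ζ hζ
        rw [eval_mul, eval_C]
        exact mul_ne_zero two_ne_zero (h ζ hζ)
    · rw [pow_zero, one_mul, hc, mul_comp, C_comp]
      ring
  | succ j =>
    refine ⟨j, C ((j : ℂ) + 1) * G + C 2 * X * derivative G, RR_step hG j, ?_⟩
    rw [derivative_mul, hc, derivative_X_pow]
    simp only [add_comp, mul_comp, C_comp, X_comp, Nat.add_sub_cancel]
    push_cast
    rw [pow_succ]
    simp only [C_add, C_1, map_natCast]
    ring

theorem Good_iterate {F : ℂ[X]} (h : Good F) (m : ℕ) : Good (derivative^[m] F) := by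
  induction m with
  | zero => exact h
  | succ m ih => rw [Function.iterate_succ_apply']; exact Good_derivative ih

theorem Good_rhombus_pow (a b : ℝ) (n : ℕ) : Good (rhombus a b ^ n) := by
  refine ⟨0, ((X - C ((a : ℂ) ^ 2)) * (X + C ((b : ℂ) ^ 2))) ^ n, Or.inr ?_, ?_⟩
  · intro ζ hζ
    rw [eval_pow, eval_mul, eval_sub, eval_add, eval_X, eval_C, eval_C]
    refine pow_ne_zero n (mul_ne_zero ?_ ?_)
    · intro h
      apply hζ
      have h2 : ζ = ((a ^ 2 : ℝ) : ℂ) := by push_cast; exact sub_eq_zero.1 h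
      rw [h2, Complex.ofReal_im]
    · intro h
      apply hζ
      have h2 : ζ = ((-b ^ 2 : ℝ) : ℂ) := by push_cast; exact eq_neg_of_add_eq_zero_left h
      rw [h2, Complex.ofReal_im]
  · simp [rhombus]

theorem Good_zero {F : ℂ[X]} (h : Good F) (hF : F ≠ 0) {z : ℂ} (hz : F.eval z = 0) :
    z.re = 0 ∨ z.im = 0 := by
  obtain ⟨j, G, hG, rfl⟩ := h
  rcases hG with rfl | hG
  · exact absurd (by simp) hF
  rw [eval_mul, eval_pow, eval_X, eval_comp, eval_pow, eval_X] at hz
  rcases mul_eq_zero.1 hz with h0 | h0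
  · have : z = 0 := by
      by_contra hne
      exact pow_ne_zero j hne h0
    left; rw [this]; rfl
  · have h1 : (z ^ 2).im = 0 := by
      by_contra hne
      exact hG _ hne h0
    rw [sq, Complex.mul_im] at h1
    have h2 : z.re * z.im = 0 := by linarith
    exact mul_eq_zero.1 h2

theorem iterate_derivative_ne_zero {F : ℂ[X]} (hF : F ≠ 0) {m : ℕ} (hm : m ≤ F.natDegree) :
    derivative^[m] F ≠ 0 := by
  intro h
  have h1 : (derivative^[m] F).coeff (F.natDegree - m) = 0 := by rw [h]; simp
  rw [coeff_iterate_derivative, Nat.sub_add_cancel hm, nsmul_eq_mul] at h1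
  rcases mul_eq_zero.1 h1 with h2 | h2
  · have h3 : F.natDegree.descFactorial m = 0 := by exact_mod_cast h2
    rw [Nat.descFactorial_eq_zero_iff_lt] at h3
    omega
  · exact hF (leadingCoeff_eq_zero.1 h2)

/-! ### The rhombus polynomial -/

theorem rhombus_eq (a b : ℝ) : rhombus a b =
    (({(a : ℂ), -(a : ℂ), (b : ℂ) * Complex.I, -((b : ℂ) * Complex.I)} : Multiset ℂ).map
      (fun w => X - C w)).prod := by
  have hI : (C Complex.I : ℂ[X]) * C Complex.I = -1 := by
    rw [← C_mul, Complex.I_mul_I]; simp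
  simp only [rhombus, Multiset.insert_eq_cons, Multiset.map_cons, Multiset.map_singleton,
    Multiset.prod_cons, Multiset.prod_singleton, C_neg, C_mul, C_pow]
  linear_combination ((X ^ 2 - C (a : ℂ) ^ 2) * C (b : ℂ) ^ 2) * hI

theorem rhombus_roots (a b : ℝ) : (rhombus a b).roots =
    ({(a : ℂ), -(a : ℂ), (b : ℂ) * Complex.I, -((b : ℂ) * Complex.I)} : Multiset ℂ) := by
  rw [rhombus_eq, roots_multiset_prod_X_sub_C]

theorem rhombus_natDegree (a b : ℝ) : (rhombus a b).natDegree = 4 := by
  rw [rhombus_eq, natDegree_multiset_prod_X_sub_C_eq_card]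
  simp

theorem rhombus_ne_zero (a b : ℝ) : rhombus a b ≠ 0 := by
  intro h
  have := rhombus_natDegree a b
  rw [h, natDegree_zero] at this
  omega

theorem zeroSet_rhombus (a b : ℝ) : zeroSet (rhombus a b) ⊆ {z | z.re = 0 ∨ z.im = 0} := by
  rintro z ⟨n, m, hn, hm, hz⟩
  have h1 : rhombus a b ^ n ≠ 0 := pow_ne_zero n (rhombus_ne_zero a b)
  have h2 : m ≤ (rhombus a b ^ n).natDegree := by
    rw [natDegree_pow]; exact hm
  exact Good_zero (Good_iterate (Good_rhombus_pow a b n) m)
    (iterate_derivative_ne_zero h1 h2) hz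

theorem isClosed_axes : IsClosed {z : ℂ | z.re = 0 ∨ z.im = 0} :=
  (isClosed_singleton.preimage Complex.continuous_re).union
    (isClosed_singleton.preimage Complex.continuous_im)

theorem shadow_rhombus (a b : ℝ) : shadow (rhombus a b) ⊆ {z | z.re = 0 ∨ z.im = 0} :=
  closure_minimal (zeroSet_rhombus a b) isClosed_axes

theorem not_closedDomain {S : Set ℂ} (hS : S ⊆ {z | z.re = 0 ∨ z.im = 0}) :
    ¬ IsClosedDomain S := by
  rintro ⟨U, hU, hc, rfl⟩
  obtain ⟨z, hz⟩ := hc.nonempty
  have hsub : U ⊆ {z | z.re = 0 ∨ z.im = 0} := subset_closure.trans hS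
  obtain ⟨ε, hε, hball⟩ := Metric.isOpen_iff.1 hU z hz
  -- a point of the ball with both coordinates nonzero
  have key : ∀ x : ℝ, ∃ t : ℝ, 0 ≤ t ∧ t ≤ ε / 4 ∧ x + t ≠ 0 := by
    intro x
    by_cases hx : x = 0
    · exact ⟨ε / 4, by positivity, le_refl _, by rw [hx]; positivity⟩
    · exact ⟨0, le_refl _, by positivity, by simpa using hx⟩
  obtain ⟨s, hs0, hs1, hs2⟩ := key z.re
  obtain ⟨t, ht0, ht1, ht2⟩ := key z.im
  have hmem : z + ⟨s, t⟩ ∈ U := by
    apply hball
    rw [Metric.mem_ball, dist_eq_norm, add_sub_cancel_left]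
    calc ‖(⟨s, t⟩ : ℂ)‖ ≤ |s| + |t| := Complex.norm_le_abs_re_add_abs_im _
      _ ≤ ε / 4 + ε / 4 := by rw [abs_of_nonneg hs0, abs_of_nonneg ht0]; linarith
      _ < ε := by linarith
  rcases hsub hmem with h | h
  · exact hs2 (by simpa using h)
  · exact ht2 (by simpa using h)

theorem rootSet_rhombus (a b : ℝ) : rootSet' (rhombus a b) =
    {(a : ℂ), -(a : ℂ), (b : ℂ) * Complex.I, -((b : ℂ) * Complex.I)} := by
  ext w
  rw [rootSet', Set.mem_ofPred_eq, rhombus_roots]
  simp

theorem halfspace_convex (l : ℂ →ₗ[ℝ] ℝ) : Convex ℝ {z : ℂ | l z ≤ 0} :=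
  convex_halfSpace_le l.isLinear 0

theorem notMem_hull (l : ℂ →ₗ[ℝ] ℝ) {z : ℂ} {S : Set ℂ} (hS : ∀ w ∈ S, l w ≤ 0) (hz : 0 < l z) :
    z ∉ convexHull ℝ S := by
  intro h
  have : z ∈ {z : ℂ | l z ≤ 0} := convexHull_min hS (halfspace_convex l) h
  exact absurd this (not_le.2 hz)

theorem rhombus_convex {a b : ℝ} (ha : 0 < a) (hb : 0 < b) :
    RootsInConvexPosition (rhombus a b) := by
  have hre : ∀ {x y : ℂ}, x.re ≠ y.re → x ≠ y := fun h h' => h (by rw [h'])
  have him : ∀ {x y : ℂ}, x.im ≠ y.im → x ≠ y := fun h h' => h (by rw [h'])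
  have h12 : (a : ℂ) ≠ -(a : ℂ) := hre (by simp; linarith)
  have h13 : (a : ℂ) ≠ (b : ℂ) * Complex.I := hre (by simp; linarith)
  have h14 : (a : ℂ) ≠ -((b : ℂ) * Complex.I) := hre (by simp; linarith)
  have h23 : -(a : ℂ) ≠ (b : ℂ) * Complex.I := hre (by simp; linarith)
  have h24 : -(a : ℂ) ≠ -((b : ℂ) * Complex.I) := hre (by simp; linarith)
  have h34 : (b : ℂ) * Complex.I ≠ -((b : ℂ) * Complex.I) := him (by simp; linarith)
  constructor
  · rw [rhombus_roots]
    simp [h12, h13, h14, h23, h24, h34]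
  · intro z hz
    rw [rootSet_rhombus] at hz ⊢
    simp only [Set.mem_insert_iff, Set.mem_singleton_iff] at hz
    rcases hz with rfl | rfl | rfl | rfl
    · refine notMem_hull Complex.reLm ?_ ?_
      · rintro w ⟨hw, hne⟩
        simp only [Set.mem_insert_iff, Set.mem_singleton_iff] at hw hne
        rcases hw with rfl | rfl | rfl | rfl
        · exact absurd rfl hne
        · simp; linarith
        · simp
        · simp
      · simpa using ha
    · refine notMem_hull (-Complex.reLm) ?_ ?_
      · rintro w ⟨hw, hne⟩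
        simp only [Set.mem_insert_iff, Set.mem_singleton_iff] at hw hne
        rcases hw with rfl | rfl | rfl | rfl
        · simp; linarith
        · exact absurd rfl hne
        · simp
        · simp
      · simpa using ha
    · refine notMem_hull Complex.imLm ?_ ?_
      · rintro w ⟨hw, hne⟩
        simp only [Set.mem_insert_iff, Set.mem_singleton_iff] at hw hne
        rcases hw with rfl | rfl | rfl | rfl
        · simp
        · simp
        · exact absurd rfl hne
        · simp; linarith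
      · simpa using hb
    · refine notMem_hull (-Complex.imLm) ?_ ?_
      · rintro w ⟨hw, hne⟩
        simp only [Set.mem_insert_iff, Set.mem_singleton_iff] at hw hne
        rcases hw with rfl | rfl | rfl | rfl
        · simp
        · simp
        · simp; linarith
        · exact absurd rfl hne
      · simpa using hb

theorem rhombus_not_regular {a b : ℝ} (ha : 0 < a) (hb : 0 < b) (hab : a ≠ b) :
    ¬ RootsFormRegularPolygon (rhombus a b) := by
  rintro ⟨c, r, hr, h⟩
  rw [rhombus_natDegree, rootSet_rhombus] at h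
  have hn : ∀ w ∈ ({(a : ℂ), -(a : ℂ), (b : ℂ) * Complex.I, -((b : ℂ) * Complex.I)} : Set ℂ),
      Complex.normSq (w - c) = Complex.normSq r := by
    intro w hw
    rw [h] at hw
    obtain ⟨ζ, hζ, rfl⟩ := hw
    rw [add_sub_cancel_left, map_mul]
    have h1 : Complex.normSq ζ ^ 4 = 1 := by rw [← map_pow, hζ, map_one]
    have h2 : Complex.normSq ζ = 1 :=
      (pow_eq_one_iff_of_nonneg (Complex.normSq_nonneg ζ) (by norm_num)).1 h1
    rw [h2, mul_one]
  have h1 := hn a (by simp)
  have h2 := hn (-a) (by simp)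
  have h3 := hn (b * Complex.I) (by simp)
  have h4 := hn (-(b * Complex.I)) (by simp)
  simp only [Complex.normSq_apply, Complex.sub_re, Complex.sub_im, Complex.neg_re, Complex.neg_im,
    Complex.mul_re, Complex.mul_im, Complex.ofReal_re, Complex.ofReal_im, Complex.I_re,
    Complex.I_im] at h1 h2 h3 h4
  have h5 : a * c.re = 0 := by nlinarith
  have h6 : b * c.im = 0 := by nlinarith
  have h7 : c.re = 0 := by
    rcases mul_eq_zero.1 h5 with h | h
    · exact absurd h ha.ne'
    · exact h
  have h8 : c.im = 0 := by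
    rcases mul_eq_zero.1 h6 with h | h
    · exact absurd h hb.ne'
    · exact h
  rw [h7, h8] at h1 h3
  have h9 : a * a = b * b := by nlinarith
  exact hab ((mul_self_inj_of_nonneg ha.le hb.le).1 h9)

/-- **Disproof of Q1.** Let `a, b > 0` with `a ≠ b`.  The polynomial `P = (X² - a²)(X² + b²)` has
degree `4 ≥ 3`, its roots are in convex position and are not the vertices of a regular polygon, but
its shadow lies in the union of the two coordinate axes and is not a closed domain. -/
theorem result (a b : ℝ) (ha : 0 < a) (hb : 0 < b) (hab : a ≠ b) :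
    3 ≤ (rhombus a b).natDegree ∧
    RootsInConvexPosition (rhombus a b) ∧
    ¬ RootsFormRegularPolygon (rhombus a b) ∧
    shadow (rhombus a b) ⊆ {z | z.re = 0 ∨ z.im = 0} ∧
    ¬ IsClosedDomain (shadow (rhombus a b)) :=
  ⟨by rw [rhombus_natDegree]; norm_num, rhombus_convex ha hb, rhombus_not_regular ha hb hab,
    shadow_rhombus a b, not_closedDomain (shadow_rhombus a b)⟩

end Pool.Agent.Results.MP_424c76_an.Rhombi
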